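import Pool.Agent.N19.BR.BSD
import Pool.Agent.N19.BR.Main

/-!
# The rank part of the conjecture of Birch and Swinnerton-Dyer over all number fields, with the
continuation of the L-function: reduction to hyperelementary Galois action and large local degrees

`K` is a number field, `L` a finite Galois extension of `K`, for example `L = K(E[N])` for an elliptic
curve `E` over `K`, and `S` a finite set of primes of `K`, for example the primes of bad reduction.

The proof.  A relation `∑ e_i [F_i] = [K]` between the permutation characters of finite extensions
`F_i` of `K` gives the same relation between the `L`-functions and between the ranks (library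
`R433.MD`, `R333.BR`).  The new point is the existence of such relations, with the coefficient `1` on the
right, with local conditions (`Pool.Agent.N19.BR`).  For every prime `p` there is a relation with a
coefficient prime to `p`, in which the Galois groups of `L F_i / F_i` are `p`-hyperelementary; it is refined
by the relations for the splitting fields of the polynomials `(X^ℓ - a) h`, `ℓ ≠ p`, `a` a
uniformizer at the primes in `S` and `h` of degree `ℓ` and irreducible modulo these primes, and by the
relations for `F(√a_1, …, √a_r)`, `a_j` positive at only one of the `r` real places of `F`.
-/

set_option autoImplicit false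

namespace Pool.Agent.Results.MP_ae0bd0_nt.HyperelementaryFields

open NumberField IsDedekindDomain
open Pool.Agent.R433.MD (Ext)
open Pool.Agent.N19.BR.Def

/-- **Reduction of the rank conjecture with the continuation.**  Let `L/K` be a finite Galois extension of
number fields, `S` a finite set of primes of `K` and `n ≥ 1`.  There are finitely many finite extensions
`F_i` of `K` and prime numbers `p_i` such that
* the Galois group of `L F_i / F_i` is `p_i`-hyperelementary;
* the part of `n` prime to `p_i` divides the degrees of the completions of `F_i` over those of `K` at all
  primes above `S`;
* `F_i` has at most two real places if `p_i ≠ 2`;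
* for all elliptic curves `E` over `K` and all connected `U` that contain `1` and the half plane
  `Re s > 3/2`, for example `U = ℂ`: if for all `i` the function `L(E/F_i, s)` has a meromorphic
  continuation to `U` with order at `1` equal to the rank of `E(F_i)`, then `L(E/K, s)` has a
  meromorphic continuation to `U` with order at `1` equal to the rank of `E(K)`. -/
theorem result (K : Type) [Field K] [NumberField K] (L : Type) [Field L] [NumberField L]
    [Algebra K L] [IsGalois K L] (S : Set (HeightOneSpectrum (𝓞 K))) (hS : S.Finite) (n : ℕ)
    (hn : n ≠ 0) :
    ∃ (r : ℕ) (F : Fin r → Ext K),
      (∀ i, HyperelementaryClass L S n (F i)) ∧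
      ∀ E : WeierstrassCurve K, E.IsElliptic → ∀ U : Set ℂ, IsPreconnected U → 1 ∈ U →
        (∀ s : ℂ, 3 / 2 < s.re → s ∈ U) →
        (∀ i, RankFormula U 1 (E.map (algebraMap K (F i).F))) → RankFormula U 1 E := by
  obtain ⟨r, F, e, hrel, hF⟩ := Pool.Agent.N19.BR.list_hyper K L hS hn
  exact ⟨r, F, hF, fun E hE U hU h1 hH hr =>
    (Pool.Agent.N19.BR.rank_of_rel one_ne_zero hrel hU hH h1 hE hr).1⟩

end Pool.Agent.Results.MP_ae0bd0_nt.HyperelementaryFields
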