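import Pool.Agent.N19.BR.BSD
import Pool.Agent.N19.BR.Main

/-!
# The conjecture of Birch and Swinnerton-Dyer on the rank over all number fields: reduction to fields
with at most two real places, cyclic Galois action and large local degrees

`K` is a number field, `L` a finite Galois extension of `K`, for example `L = K(E[N])` for an elliptic
curve `E` over `K`, and `S` a finite set of primes of `K`, for example the primes of bad reduction.

The proof.  A relation `∑ e_i [F_i] = m [K]` between the permutation characters of finite extensions
`F_i` of `K` gives the same relation between the orders at `s = 1` of the `L`-functions and between the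
ranks (library `R433.MD`, `R333.BR`).  The new point is the existence of relations with local conditions
(`Pool.Agent.N19.BR`): a set of subfields of a Galois extension `M / K` that is closed under composita
and conjugation carries a relation if every element of `Gal(M / K)` fixes one of these fields.
(1) Subfields over which `M` is cyclic, for `M` the splitting field of `(X^ℓ - a) h`, `a` a uniformizer
at the primes in `S` and `h` of degree `ℓ` and irreducible modulo these primes: in a cyclic extension
there is only one subextension of degree `ℓ`, and it cannot be both ramified and inert, so `ℓ` divides the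
local degrees; this is repeated.  (2) If `F` has real embeddings `u_1, …, u_r`, `r ≥ 2`, and `a_j ∈ F` is
positive at `u_j` only, then every element of `Gal(F(√a_1, …, √a_r) / F)` fixes a subfield without real
place or one of the fields `F(√a_j)`, and this family is closed under composita.  (If `K` has two real
places, then no finite extension of `K` has exactly one real place, so the bound `two` is natural.)
-/

set_option autoImplicit false

namespace Pool.Agent.Results.MP_cd906c_nt.TwoRealPlacesCyclic

open NumberField IsDedekindDomain
open Pool.Agent.R433.MD (Ext)
open Pool.Agent.N19.BR.Def

/-- **Reduction of the rank conjecture.**  Let `L/K` be a finite Galois extension of number fields, `S`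
a finite set of primes of `K` and `n ≥ 1`.  There are finitely many finite extensions `F_i` of `K` and
`m ≥ 1` such that
* `L F_i / F_i` is cyclic;
* `n` divides the degrees of the completions of `F_i` over those of `K` at all primes above `S`;
* `F_i` has at most two real places;
* for all elliptic curves `E` over `K` and all connected `U` that contain `1` and the half plane
  `Re s > 3/2`, for example `U = ℂ`: if the rank formula (continuation of `L(E/F_i, s)` to `U` and order at
  `1` equal to the rank) holds for `E` over all `F_i`, then it holds for `L(E/K, s) ^ m`, and if
  `L(E/K, s)` has a meromorphic continuation to `U`, then its order at `1` is the rank of `E(K)`. -/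
theorem result (K : Type) [Field K] [NumberField K] (L : Type) [Field L] [NumberField L]
    [Algebra K L] [IsGalois K L] (S : Set (HeightOneSpectrum (𝓞 K))) (hS : S.Finite) (n : ℕ)
    (hn : n ≠ 0) :
    ∃ (r : ℕ) (F : Fin r → Ext K) (m : ℕ), m ≠ 0 ∧
      (∀ i, CyclicOver L (F i) ∧ LocalDegreesDivisible S n (F i) ∧ AtMostTwoRealPlaces (F i)) ∧
      ∀ E : WeierstrassCurve K, E.IsElliptic → ∀ U : Set ℂ, IsPreconnected U → 1 ∈ U →
        (∀ s : ℂ, 3 / 2 < s.re → s ∈ U) →
        (∀ i, RankFormula U 1 (E.map (algebraMap K (F i).F))) →
        RankFormula U m E ∧ ∀ Λ : ℂ → ℂ, Continues U 1 E Λ → RankFormula U 1 E := by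
  obtain ⟨r, F, e, m, hm, hrel, hF⟩ := Pool.Agent.N19.BR.list_cyclic K L hS hn
  exact ⟨r, F, m, hm, hF, fun E hE U hU h1 hH hr =>
    Pool.Agent.N19.BR.rank_of_rel hm hrel hU hH h1 hE hr⟩

end Pool.Agent.Results.MP_cd906c_nt.TwoRealPlacesCyclic
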