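import Pool.Agent.N19.BR.RH
import Pool.Agent.N19.BR.Main

/-!
# The Riemann hypothesis for elliptic curves over all number fields: reduction to fields with at most
two real places, cyclic Galois action and large local degrees

`K` is a number field, `L` a finite Galois extension of `K`, for example `L = K(E[N])` for an elliptic
curve `E` over `K` (or over `ℚ`), and `S` a finite set of primes of `K`, for example the primes of bad
reduction.

The proof.  There is a relation `∑ e_i [F_i] = m [K]` between the permutation characters of finite
extensions `F_i` of `K` with these properties (`Pool.Agent.N19.BR`: relations with local conditions from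
the splitting fields of the polynomials `(X^ℓ - a) h`, `a` a uniformizer at the primes in `S` and `h` of
degree `ℓ` and irreducible modulo these primes, and relations for `F(√a_1, …, √a_r)`, `a_j` positive at
only one of the `r` real places of `F`).  It gives
`L(E/K, s) ^ m = R(s) ∏ L(E/F_i, s) ^ e_i` for `Re s > 3/2`, where `R` comes from the bad primes; the zeros
of the Euler factors are in `Re s ≤ 1`, so that `R` has neither zeros nor poles in `Re s > 1`.  If the
functions `L(E/F_i, s)` have no zeros and no poles in `Re s > σ`, `σ ≥ 1`, then the right side has an
analytic `m`-th root in this half-plane, which is simply connected; in `Re s > 3/2` it differs from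
`L(E/K, s)` by an `m`-th root of unity, which is constant by continuity.  Therefore `L(E/K, s)` itself, not
only its `m`-th power, has a continuation, and it has no zeros.
-/

set_option autoImplicit false

namespace Pool.Agent.Results.MP_fb225e_nt.TwoRealPlacesZeroFree

open NumberField IsDedekindDomain
open Pool.Agent.R433.MD (Ext)
open Pool.Agent.N19.BR.Def

/-- **Reduction of the Riemann hypothesis.**  Let `L/K` be a finite Galois extension of number fields, `S`
a finite set of primes of `K` and `n ≥ 1`.  There are finitely many finite extensions `F_i` of `K` such
that
* `L F_i / F_i` is cyclic;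
* `n` divides the degrees of the completions of `F_i` over those of `K` at all primes above `S`;
* `F_i` has at most two real places;
* for all elliptic curves `E` over `K` and all `1 ≤ σ ≤ 3/2`: if the functions `L(E/F_i, s)` have
  analytic continuations without zeros to `Re s > σ`, then `L(E/K, s)` has an analytic continuation
  without zeros to `Re s > σ`.

The case `σ = 1` is the Riemann hypothesis. -/
theorem result (K : Type) [Field K] [NumberField K] (L : Type) [Field L] [NumberField L]
    [Algebra K L] [IsGalois K L] (S : Set (HeightOneSpectrum (𝓞 K))) (hS : S.Finite) (n : ℕ)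
    (hn : n ≠ 0) :
    ∃ (r : ℕ) (F : Fin r → Ext K),
      (∀ i, CyclicOver L (F i) ∧ LocalDegreesDivisible S n (F i) ∧ AtMostTwoRealPlaces (F i)) ∧
      ∀ E : WeierstrassCurve K, E.IsElliptic → ∀ σ : ℝ, 1 ≤ σ → σ ≤ 3 / 2 →
        (∀ i, ZeroFree σ (E.map (algebraMap K (F i).F))) → ZeroFree σ E := by
  obtain ⟨r, F, e, m, hm, hrel, hF⟩ := Pool.Agent.N19.BR.list_cyclic K L hS hn
  exact ⟨r, F, hF, fun E hE σ h1 h2 hr =>
    Pool.Agent.N19.BR.zeroFree_of_rel hm hrel h1 h2 hE hr⟩

end Pool.Agent.Results.MP_fb225e_nt.TwoRealPlacesZeroFree
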